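import Pool.Agent.Y320.KT.Auto
import Pool.Agent.Helper879.ECD.Labels

set_option autoImplicit false

namespace Pool.Agent.Y320.KT

open Finset Pool.Agent.Helper879.ECD

variable {V : Type} [Fintype V] [DecidableEq V]

/-- The sum over a cycle of a permutation, written along the cycle. -/
theorem sum_along (π : Equiv.Perm V) (φ : V → F2) (r : V) :
    ∑ i ∈ range (Function.minimalPeriod π r), φ (π^[i] r) =
      ∑ v ∈ univ.filter (fun v => π.SameCycle r v), φ v := by
  classical
  refine Finset.sum_bij (fun i _ => π^[i] r) ?_ ?_ ?_ ?_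
  · intro i _
    rw [Finset.mem_filter]
    refine ⟨Finset.mem_univ _, ⟨i, ?_⟩⟩
    rw [zpow_natCast, ← Equiv.Perm.iterate_eq_pow]
  · intro i hi j hj hij
    exact Function.iterate_injOn_Iio_minimalPeriod (Finset.mem_range.1 hi)
      (Finset.mem_range.1 hj) hij
  · intro v hv
    rw [Finset.mem_filter] at hv
    obtain ⟨i, hi⟩ := hv.2.exists_nat_pow_eq
    have hpos : 0 < Function.minimalPeriod π r :=
      Function.minimalPeriod_pos_of_mem_periodicPts
        (Function.Injective.mem_periodicPts π.injective r)
    refine ⟨i % Function.minimalPeriod π r, Finset.mem_range.2 (Nat.mod_lt _ hpos), ?_⟩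
    rw [Function.iterate_mod_minimalPeriod_eq, Equiv.Perm.iterate_eq_pow]
    exact hi
  · intro i _
    rfl

/-- States along the cycles of a permutation. -/
theorem states (π : Equiv.Perm V) (ℓ : V → ℕ) (hℓ : ∀ v, ℓ v < 3)
    (hp : Bal π (fun v => vp (ℓ v))) (hq : Bal π (fun v => vq (ℓ v))) :
    ∃ st : V → ℕ, ∀ v, Tr (ℓ v) (st (π.symm v)) (st v) := by
  classical
  have hpos : ∀ r, 0 < Function.minimalPeriod π r := fun r =>
    Function.minimalPeriod_pos_of_mem_periodicPts
      (Function.Injective.mem_periodicPts π.injective r)
  -- the walk of every cycle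
  have hw : ∀ r : V, ∃ s : ℕ → ℕ, s 0 = s (Function.minimalPeriod π r) ∧
      ∀ i < Function.minimalPeriod π r, Tr (ℓ (π^[i] r)) (s i) (s (i + 1)) := by
    intro r
    apply closed_walk (fun i => ℓ (π^[i] r)) (fun i => hℓ _)
    · have h1 := sum_along π (fun v => vp (ℓ v)) r
      beta_reduce at h1
      rw [h1]
      exact hp.sum_cycle r
    · have h1 := sum_along π (fun v => vq (ℓ v)) r
      beta_reduce at h1
      rw [h1]
      exact hq.sum_cycle r
  choose s hs0 hs using hw
  -- representatives
  let rep : V → V := fun v => Quotient.out (Quotient.mk (Equiv.Perm.SameCycle.setoid π) v)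
  have hrep : ∀ v, π.SameCycle (rep v) v := fun v =>
    Quotient.exact (Quotient.out_eq (Quotient.mk (Equiv.Perm.SameCycle.setoid π) v))
  have hrep' : ∀ u v, π.SameCycle u v → rep u = rep v := by
    intro u v h
    show Quotient.out _ = Quotient.out _
    congr 1
    exact Quotient.sound h
  have hidx : ∀ v, ∃ i, i < Function.minimalPeriod π (rep v) ∧ π^[i] (rep v) = v := by
    intro v
    obtain ⟨i, hi⟩ := (hrep v).exists_nat_pow_eq
    refine ⟨i % Function.minimalPeriod π (rep v), Nat.mod_lt _ (hpos _), ?_⟩
    rw [Function.iterate_mod_minimalPeriod_eq, Equiv.Perm.iterate_eq_pow]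
    exact hi
  choose ix hix hixv using hidx
  have huniq : ∀ v j, j < Function.minimalPeriod π (rep v) → π^[j] (rep v) = v → j = ix v := by
    intro v j hj hjv
    apply Function.iterate_injOn_Iio_minimalPeriod (f := π) (x := rep v) hj (hix v)
    show π^[j] (rep v) = π^[ix v] (rep v)
    rw [hjv, hixv]
  refine ⟨fun v => s (rep v) (ix v + 1), fun v => ?_⟩
  have hsame : π.SameCycle (π.symm v) v := by
    refine ⟨1, ?_⟩
    rw [zpow_one, Equiv.apply_symm_apply]
  have hr : rep (π.symm v) = rep v := hrep' _ _ hsame
  have h1 := hs (rep v) (ix v) (hix v)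
  rw [hixv] at h1
  have h2 : s (rep v) (ix v) = s (rep v) (ix (π.symm v) + 1) := by
    rcases Nat.eq_zero_or_pos (ix v) with h0 | h0
    · -- the start of the cycle
      have h3 : Function.minimalPeriod π (rep v) - 1 = ix (π.symm v) := by
        apply huniq
        · rw [hr]; have := hpos (rep v); omega
        · rw [hr]
          apply π.injective
          rw [Equiv.apply_symm_apply, ← Function.iterate_succ_apply' (⇑π)]
          have h4 : (Function.minimalPeriod π (rep v) - 1).succ =
              Function.minimalPeriod π (rep v) := by have := hpos (rep v); omega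
          rw [h4, Function.iterate_minimalPeriod]
          have h5 := hixv v
          rw [h0] at h5
          exact h5
      rw [← h3, h0, hs0]
      congr 1
      have := hpos (rep v); omega
    · have h3 : ix v - 1 = ix (π.symm v) := by
        apply huniq
        · rw [hr]; have := hix v; omega
        · rw [hr]
          apply π.injective
          rw [Equiv.apply_symm_apply, ← Function.iterate_succ_apply' (⇑π)]
          have h4 : (ix v - 1).succ = ix v := by omega
          rw [h4]
          exact hixv v
      rw [← h3]
      congr 1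
      omega
  show Tr (ℓ v) (s (rep (π.symm v)) (ix (π.symm v) + 1)) (s (rep v) (ix v + 1))
  rw [hr, ← h2]
  exact h1

end Pool.Agent.Y320.KT
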