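import Pool.Agent.Y320.KT.Model
import Pool.Agent.Y320.KT.Cyc

set_option autoImplicit false

namespace Pool.Agent.Y320.KT

open Finset Pool.Agent.Helper879.ECD

/-- Perfect matchings from a proper edge colouring in which every colour occurs at every
vertex. -/
theorem matchings_of_slots {W : Type} (H : SimpleGraph W) (C : W → W → ℕ)
    (nb : W → ℕ → W) (hsymm : ∀ x y, H.Adj x y → C x y = C y x)
    (hadj : ∀ x y, H.Adj x y ↔ ∃ e < 5, nb x e = y)
    (hlt : ∀ x, ∀ e < 5, C x (nb x e) < 5)
    (hinj : ∀ x, ∀ e < 5, ∀ e' < 5, C x (nb x e) = C x (nb x e') → e = e') :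
    ∃ M : Fin 5 → H.Subgraph, (∀ i, (M i).IsPerfectMatching) ∧
      ∀ e ∈ H.edgeSet, ∃! i, e ∈ (M i).edgeSet := by
  classical
  let M : Fin 5 → H.Subgraph := fun k =>
    { verts := Set.univ
      Adj := fun x y => H.Adj x y ∧ C x y = k.1
      adj_sub := fun h => h.1
      edge_vert := fun _ => Set.mem_univ _
      symm := ⟨fun x y h => ⟨h.1.symm, by rw [← hsymm x y h.1]; exact h.2⟩⟩ }
  have hM : ∀ k x y, (M k).Adj x y ↔ H.Adj x y ∧ C x y = k.1 := fun k x y => Iff.rfl
  -- the slots at a vertex
  have hsurj : ∀ x : W, ∀ k : Fin 5, ∃ e < 5, C x (nb x e) = k.1 := by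
    intro x k
    let D : Fin 5 → Fin 5 := fun e => ⟨C x (nb x e.1), hlt x e.1 e.2⟩
    have hD : Function.Injective D := by
      intro e e' h
      apply Fin.ext
      exact hinj x e.1 e.2 e'.1 e'.2 (congrArg Fin.val h)
    obtain ⟨e, he⟩ := (Finite.injective_iff_surjective.1 hD) k
    exact ⟨e.1, e.2, congrArg Fin.val he⟩
  refine ⟨M, ?_, ?_⟩
  · intro k
    refine ⟨?_, ?_⟩
    · intro x _
      obtain ⟨e, he, hk⟩ := hsurj x k
      refine ⟨nb x e, (hM _ _ _).2 ⟨(hadj _ _).2 ⟨e, he, rfl⟩, hk⟩, ?_⟩
      intro y hy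
      obtain ⟨h1, h2⟩ := (hM _ _ _).1 hy
      obtain ⟨e', he', rfl⟩ := (hadj _ _).1 h1
      have h3 := hinj x e' he' e he (by rw [h2, hk])
      rw [h3]
    · intro x
      exact Set.mem_univ _
  · intro e
    induction e with
    | _ x y =>
      intro he
      rw [SimpleGraph.mem_edgeSet] at he
      have hC : C x y < 5 := by
        obtain ⟨e, he1, rfl⟩ := (hadj _ _).1 he
        exact hlt x e he1
      refine ⟨⟨C x y, hC⟩, ?_, ?_⟩
      · show s(x, y) ∈ (M _).edgeSet
        rw [SimpleGraph.Subgraph.mem_edgeSet]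
        exact ⟨he, rfl⟩
      · intro k hk
        have hk' : (M k).Adj x y := by
          rw [← SimpleGraph.Subgraph.mem_edgeSet]
          exact hk
        apply Fin.ext
        exact ((hM _ _ _).1 hk').2.symm

variable {V : Type} [Fintype V] [DecidableEq V]

/-- `G × K₃` is 1-factorable for every cubic graph `G` without bridges. -/
theorem main (G : SimpleGraph V) (hreg : ∀ v, {e : Sym2 V | e ∈ G.edgeSet ∧ v ∈ e}.ncard = 3)
    (hbr : ∀ e ∈ G.edgeSet, ¬ G.IsBridge e) :
    ∃ M : Fin 5 → (SimpleGraph.boxProd G (⊤ : SimpleGraph (Fin 3))).Subgraph,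
      (∀ i, (M i).IsPerfectMatching) ∧
      ∀ e ∈ (SimpleGraph.boxProd G (⊤ : SimpleGraph (Fin 3))).edgeSet,
        ∃! i, e ∈ (M i).edgeSet := by
  classical
  -- the graph as a multigraph
  let E : Type := {e : Sym2 V // e ∈ G.edgeSet}
  let a : E → V := fun e => (Quot.out e.1).1
  let b : E → V := fun e => (Quot.out e.1).2
  have hends : ∀ e : E, e.1 = s(a e, b e) := by
    intro e
    exact (Quot.out_eq e.1).symm
  let G' : MGraph V E := ⟨fun e => e.1, fun e => G.not_isDiag_of_mem_edgeSet e.2⟩
  have hab : ∀ e, a e ≠ b e := by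
    intro e h
    apply G'.loopless e
    show (e.1).IsDiag
    rw [hends, h]; exact Sym2.mk_isDiag_iff.2 rfl
  have hmem : ∀ (e : E) v, v ∈ e.1 ↔ v = a e ∨ v = b e := by
    intro e v
    conv_lhs => rw [hends e]
    exact Sym2.mem_iff
  have hc : ∀ w, cn a b univ {w} = 3 := by
    intro w
    unfold cn
    rw [← Set.ncard_coe_finset, ← hreg w]
    have h1 : {e : Sym2 V | e ∈ G.edgeSet ∧ w ∈ e} = (fun e : E => e.1) ''
        (↑(univ.filter (fun e : E => ¬ (a e ∈ ({w} : Finset V) ↔ b e ∈ ({w} : Finset V)))) :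
          Set E) := by
      ext e
      simp only [Set.mem_ofPred_eq, Set.mem_image, Finset.coe_filter, Finset.mem_univ, true_and,
        Finset.mem_singleton]
      constructor
      · rintro ⟨he, hw⟩
        refine ⟨⟨e, he⟩, ?_, rfl⟩
        have h2 := (hmem ⟨e, he⟩ w).1 hw
        have h3 := hab ⟨e, he⟩
        rcases h2 with h2 | h2
        · intro h4; exact h3 (by rw [← h2, h4.1 h2.symm])
        · intro h4; exact h3 (by rw [← h2, h4.2 h2.symm])
      · rintro ⟨e', he', rfl⟩
        refine ⟨e'.2, ?_⟩
        rw [hmem]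
        by_contra hcon
        push Not at hcon
        exact he' ⟨fun h => absurd h.symm hcon.1, fun h => absurd h.symm hcon.2⟩
    rw [h1]
    exact (Set.ncard_image_of_injective _ Subtype.val_injective).symm
  have hb : ∀ X : Finset V, cn a b univ X ≠ 1 := by
    intro X hX
    unfold cn at hX
    obtain ⟨e0, he0⟩ := Finset.card_eq_one.1 hX
    have hcut : ∀ e, ¬ (a e ∈ X ↔ b e ∈ X) → e = e0 := by
      intro e he
      have : e ∈ univ.filter (fun e => ¬ (a e ∈ X ↔ b e ∈ X)) :=
        Finset.mem_filter.2 ⟨Finset.mem_univ _, he⟩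
      rw [he0, Finset.mem_singleton] at this; exact this
    have he0' : ¬ (a e0 ∈ X ↔ b e0 ∈ X) := by
      have : e0 ∈ univ.filter (fun e => ¬ (a e ∈ X ↔ b e ∈ X)) := by
        rw [he0]; exact Finset.mem_singleton_self _
      exact (Finset.mem_filter.1 this).2
    apply hbr e0.1 e0.2
    rw [hends e0, SimpleGraph.isBridge_iff]
    intro hreach
    have hstep : ∀ x y, (G.deleteEdges {s(a e0, b e0)}).Adj x y → (x ∈ X ↔ y ∈ X) := by
      intro x y hxy
      rw [SimpleGraph.deleteEdges_adj] at hxy
      by_contra hcon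
      apply hxy.2
      have h1 : (⟨s(x, y), hxy.1⟩ : E) = e0 := by
        apply hcut
        have h2 := hends ⟨s(x, y), hxy.1⟩
        rcases Sym2.eq_iff.1 h2 with ⟨h3, h4⟩ | ⟨h3, h4⟩
        · rw [← h3, ← h4]; exact hcon
        · rw [← h3, ← h4]; exact fun h => hcon ⟨h.2, h.1⟩
      rw [Set.mem_singleton_iff, ← hends e0, ← h1]
    have hall : ∀ x y, (G.deleteEdges {s(a e0, b e0)}).Reachable x y → (x ∈ X ↔ y ∈ X) := by
      intro x y h
      obtain ⟨w⟩ := h
      induction w with
      | nil => exact Iff.rfl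
      | cons h _ ih => exact (hstep _ _ h).trans ih
    exact he0' (hall _ _ hreach)
  obtain ⟨π, m, f, g, p, q, hm, hmne, hπne, hef, heg, hfinj, hfg, hnz, hpm, hqm, hpb, hqb⟩ :=
    setup G' a b hends hc hb
  -- adjacency
  have hadjf : ∀ v, G.Adj v (π v) := by
    intro v
    rw [← SimpleGraph.mem_edgeSet, ← hef v]
    exact (f v).2
  have hadjg : ∀ v, G.Adj v (m v) := by
    intro v
    rw [← SimpleGraph.mem_edgeSet, ← heg v]
    exact (g v).2
  have hπm : ∀ v, π v ≠ m v := by
    intro v h
    apply hfg v v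
    apply Subtype.ext
    show G'.ends (f v) = G'.ends (g v)
    rw [hef, heg, h]
  have hππ : ∀ v, π (π v) ≠ v := by
    intro v h
    have h1 : f (π v) = f v := by
      apply Subtype.ext
      show G'.ends (f (π v)) = G'.ends (f v)
      rw [hef, hef, h]; exact Sym2.eq_swap
    exact hπne v (hfinj h1)
  have hπm' : ∀ v, π (m v) ≠ v := by
    intro v h
    apply hfg (m v) v
    apply Subtype.ext
    show G'.ends (f (m v)) = G'.ends (g v)
    rw [hef, heg, h]; exact Sym2.eq_swap
  have hnb : ∀ u v, G.Adj u v ↔ v = m u ∨ v = π.symm u ∨ v = π u := by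
    intro u v
    constructor
    · intro h
      by_contra hcon
      push Not at hcon
      have h1 : ({s(u, m u), s(u, π.symm u), s(u, π u), s(u, v)} : Finset (Sym2 V)) ⊆
          (Set.toFinite {e : Sym2 V | e ∈ G.edgeSet ∧ u ∈ e}).toFinset := by
        intro e he
        rw [Set.Finite.mem_toFinset]
        simp only [Finset.mem_insert, Finset.mem_singleton] at he
        rcases he with rfl | rfl | rfl | rfl
        · exact ⟨hadjg u, Sym2.mem_mk_left _ _⟩
        · refine ⟨?_, Sym2.mem_mk_left _ _⟩
          have h2 := hadjf (π.symm u)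
          rw [Equiv.apply_symm_apply] at h2
          exact h2.symm
        · exact ⟨hadjf u, Sym2.mem_mk_left _ _⟩
        · exact ⟨h, Sym2.mem_mk_left _ _⟩
      have h2 := Finset.card_le_card h1
      rw [← Set.ncard_eq_toFinset_card, hreg u] at h2
      have key : ∀ x y : V, s(u, x) = s(u, y) → x = y := by
        intro x y hxy
        exact (Sym2.congr_right).1 hxy
      have n1 : m u ≠ π.symm u := by
        intro h3
        apply hπm' u
        rw [h3, Equiv.apply_symm_apply]
      have n2 : π.symm u ≠ π u := by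
        intro h3
        apply hππ u
        rw [← h3, Equiv.apply_symm_apply]
      rw [Finset.card_insert_of_notMem, Finset.card_insert_of_notMem,
        Finset.card_insert_of_notMem, Finset.card_singleton] at h2
      · omega
      · rw [Finset.mem_singleton]
        intro h3; exact hcon.2.2 (key _ _ h3).symm
      · simp only [Finset.mem_insert, Finset.mem_singleton]
        rintro (h3 | h3)
        · exact n2 (key _ _ h3)
        · exact hcon.2.1 (key _ _ h3).symm
      · simp only [Finset.mem_insert, Finset.mem_singleton]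
        rintro (h3 | h3 | h3)
        · exact n1 (key _ _ h3)
        · exact hπm u (key _ _ h3).symm
        · exact hcon.1 (key _ _ h3).symm
    · rintro (rfl | rfl | rfl)
      · exact hadjg u
      · have h2 := hadjf (π.symm u)
        rw [Equiv.apply_symm_apply] at h2
        exact h2.symm
      · exact hadjf u
  -- the letters
  let ℓ : V → ℕ := fun v => if q v = 0 then 0 else if p v = 0 then 1 else 2
  have hℓ3 : ∀ v, ℓ v < 3 := by
    intro v
    show (if q v = 0 then 0 else if p v = 0 then 1 else 2) < 3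
    split_ifs <;> norm_num
  have hℓm : ∀ v, ℓ (m v) = ℓ v := by
    intro v
    show (if q (m v) = 0 then 0 else if p (m v) = 0 then 1 else 2) =
      (if q v = 0 then 0 else if p v = 0 then 1 else 2)
    rw [hpm, hqm]
  have one_of : ∀ x : F2, x ≠ 0 → x = 1 := by decide
  have hvp : ∀ v, vp (ℓ v) = p v := by
    intro v
    show vp (if q v = 0 then 0 else if p v = 0 then 1 else 2) = p v
    by_cases h1 : q v = 0
    · rw [if_pos h1]
      have h2 : p v ≠ 0 := by
        rcases hnz v with h | h
        · exact h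
        · exact absurd h1 h
      rw [one_of _ h2]
      rfl
    · rw [if_neg h1]
      by_cases h2 : p v = 0
      · rw [if_pos h2, h2]; rfl
      · rw [if_neg h2, one_of _ h2]; rfl
  have hvq : ∀ v, vq (ℓ v) = q v := by
    intro v
    show vq (if q v = 0 then 0 else if p v = 0 then 1 else 2) = q v
    by_cases h1 : q v = 0
    · rw [if_pos h1, h1]; rfl
    · rw [if_neg h1, one_of _ h1]
      by_cases h2 : p v = 0
      · rw [if_pos h2]; rfl
      · rw [if_neg h2]; rfl
  obtain ⟨st, hst⟩ := states π ℓ hℓ3 (by simp only [hvp]; exact hpb) (by simp only [hvq]; exact hqb)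
  -- the colouring
  let C : V × Fin 3 → V × Fin 3 → ℕ := fun x y =>
    if x.1 = y.1 then tau (ℓ x.1) (st (π.symm x.1)) (st x.1) ((6 - x.2.1 - y.2.1) % 3)
    else if y.1 = m x.1 then mcol (ℓ x.1) x.2.1
    else if y.1 = π x.1 then colN (st x.1) x.2.1
    else colN (st y.1) x.2.1
  let nb : V × Fin 3 → ℕ → V × Fin 3 := fun x e =>
    if e = 0 then (m x.1, x.2) else if e = 1 then (π.symm x.1, x.2)
    else if e = 2 then (π x.1, x.2) else if e = 3 then (x.1, x.2 + 1) else (x.1, x.2 + 2)
  have hCnb : ∀ x e, e < 5 → C x (nb x e) = slot (ℓ x.1) (st (π.symm x.1)) (st x.1) x.2.1 e := by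
    rintro ⟨u, i⟩ e he
    have hu1 : u ≠ m u := fun h => hmne u h.symm
    have hu2 : u ≠ π.symm u := fun h => hπne u (by conv_lhs => rw [h, Equiv.apply_symm_apply])
    have hu3 : u ≠ π u := fun h => hπne u h.symm
    have n1 : π.symm u ≠ m u := by
      intro h3
      apply hπm' u
      rw [← h3, Equiv.apply_symm_apply]
    have n2 : π.symm u ≠ π u := by
      intro h3
      apply hππ u
      rw [← h3, Equiv.apply_symm_apply]
    have he' : e = 0 ∨ e = 1 ∨ e = 2 ∨ e = 3 ∨ e = 4 := by omega
    rcases he' with rfl | rfl | rfl | rfl | rfl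
    · show (if u = m u then _ else if m u = m u then _ else _) = _
      rw [if_neg hu1, if_pos rfl]
      rfl
    · show (if u = π.symm u then _ else if π.symm u = m u then _ else if π.symm u = π u then _
        else _) = _
      rw [if_neg hu2, if_neg n1, if_neg n2]
      rfl
    · show (if u = π u then _ else if π u = m u then _ else if π u = π u then _ else _) = _
      rw [if_neg hu3, if_neg (hπm u), if_pos rfl]
      rfl
    · show (if u = u then tau (ℓ u) (st (π.symm u)) (st u) ((6 - i.1 - (i + 1).1) % 3) else _) = _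
      rw [if_pos rfl]
      have : (6 - i.1 - (i + 1).1) % 3 = (i.1 + 2) % 3 := by
        revert i; decide
      rw [this]
      rfl
    · show (if u = u then tau (ℓ u) (st (π.symm u)) (st u) ((6 - i.1 - (i + 2).1) % 3) else _) = _
      rw [if_pos rfl]
      have : (6 - i.1 - (i + 2).1) % 3 = (i.1 + 1) % 3 := by
        revert i; decide
      rw [this]
      rfl
  refine matchings_of_slots _ C nb ?_ ?_ ?_ ?_
  · -- symmetry
    rintro ⟨u, i⟩ ⟨v, j⟩ h
    rw [SimpleGraph.boxProd_adj] at h
    rcases h with ⟨h, hij⟩ | ⟨hij, h⟩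
    · have hij' : i = j := hij
      subst hij'
      have huv : G.Adj u v := h
      have hne : u ≠ v := huv.ne
      show (if u = v then _ else if v = m u then mcol (ℓ u) i.1 else if v = π u then
          colN (st u) i.1 else colN (st v) i.1) =
        (if v = u then _ else if u = m v then mcol (ℓ v) i.1 else if u = π v then
          colN (st v) i.1 else colN (st u) i.1)
      rw [if_neg hne, if_neg hne.symm]
      rcases (hnb u v).1 huv with rfl | rfl | rfl
      · rw [if_pos rfl, if_pos (hm u).symm, hℓm]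
      · have e1 : π.symm u ≠ m u := by
          intro h3; apply hπm' u; rw [← h3, Equiv.apply_symm_apply]
        have e2 : π.symm u ≠ π u := by
          intro h3; apply hππ u; rw [← h3, Equiv.apply_symm_apply]
        have e3 : u ≠ m (π.symm u) := by
          intro h3
          apply hπm (π.symm u)
          rw [Equiv.apply_symm_apply]; exact h3
        rw [if_neg e1, if_neg e2, if_neg e3, if_pos (Equiv.apply_symm_apply π u).symm]
      · have e1 : u ≠ m (π u) := by
          intro h3
          have h4 : m u = π u := by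
            conv_lhs => rw [h3]
            exact hm _
          exact hπm u h4.symm
        have e2 : u ≠ π (π u) := fun h3 => hππ u h3.symm
        rw [if_neg (hπm u), if_pos rfl, if_neg e1, if_neg e2]
    · have huv : u = v := h
      subst huv
      show (if u = u then tau (ℓ u) (st (π.symm u)) (st u) ((6 - i.1 - j.1) % 3) else _) =
        (if u = u then tau (ℓ u) (st (π.symm u)) (st u) ((6 - j.1 - i.1) % 3) else _)
      rw [if_pos rfl, if_pos rfl]
      congr 1
      omega
  · -- adjacency
    rintro ⟨u, i⟩ ⟨v, j⟩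
    rw [SimpleGraph.boxProd_adj]
    constructor
    · rintro (⟨h, hij⟩ | ⟨hij, h⟩)
      · have hij' : i = j := hij
        subst hij'
        rcases (hnb u v).1 h with rfl | rfl | rfl
        · exact ⟨0, by norm_num, rfl⟩
        · exact ⟨1, by norm_num, rfl⟩
        · exact ⟨2, by norm_num, rfl⟩
      · have huv : u = v := h
        subst huv
        have hne : i ≠ j := hij
        have : j = i + 1 ∨ j = i + 2 := by
          clear h hij
          revert i j; decide
        rcases this with rfl | rfl
        · exact ⟨3, by norm_num, rfl⟩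
        · exact ⟨4, by norm_num, rfl⟩
    · rintro ⟨e, he, h⟩
      have he' : e = 0 ∨ e = 1 ∨ e = 2 ∨ e = 3 ∨ e = 4 := by omega
      rcases he' with rfl | rfl | rfl | rfl | rfl
      · left
        have h' : (m u, i) = (v, j) := h
        rw [← (Prod.mk.inj h').1, ← (Prod.mk.inj h').2]
        exact ⟨(hnb _ _).2 (Or.inl rfl), rfl⟩
      · left
        have h' : (π.symm u, i) = (v, j) := h
        rw [← (Prod.mk.inj h').1, ← (Prod.mk.inj h').2]
        exact ⟨(hnb _ _).2 (Or.inr (Or.inl rfl)), rfl⟩
      · left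
        have h' : (π u, i) = (v, j) := h
        rw [← (Prod.mk.inj h').1, ← (Prod.mk.inj h').2]
        exact ⟨(hnb _ _).2 (Or.inr (Or.inr rfl)), rfl⟩
      · right
        have h' : (u, i + 1) = (v, j) := h
        rw [← (Prod.mk.inj h').1, ← (Prod.mk.inj h').2]
        refine ⟨?_, rfl⟩
        show i ≠ i + 1
        clear h h'
        revert i; decide
      · right
        have h' : (u, i + 2) = (v, j) := h
        rw [← (Prod.mk.inj h').1, ← (Prod.mk.inj h').2]
        refine ⟨?_, rfl⟩
        show i ≠ i + 2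
        clear h h'
        revert i; decide
  · rintro ⟨u, i⟩ e he
    rw [hCnb _ _ he]
    exact (local_ok (hℓ3 u) (hst u) i.2 he).1
  · rintro ⟨u, i⟩ e he e' he' h
    rw [hCnb _ _ he, hCnb _ _ he'] at h
    exact (local_ok (hℓ3 u) (hst u) i.2 he).2 e' he' h

end Pool.Agent.Y320.KT
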