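import Mathlib

set_option autoImplicit false

/-! A finite automaton with 15 states and three letters. For every word `ℓ 0, ..., ℓ (n - 1)`
whose letters have sum zero in the Klein four group there is a closed walk reading the word. -/

namespace Pool.Agent.Y320.KT

def tS : List ℕ := [
  1, 96, 18432, 640, 1, 128, 2048, 642, 25, 1088, 18436, 8224, 25, 96, 18432, 640, 16388, 17,
  514, 17, 9504, 25, 4448, 18436, 642, 1, 2, 13376, 4, 4448, 18436, 642, 2048, 642, 25, 1088,
  18436, 12288, 18436, 1280, 25, 9, 130, 2052, 2052, 13376, 9504, 18432, 1280, 24, 9, 130,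
  640, 24, 2052, 13376, 514, 17, 2, 8, 642, 25, 18436, 9, 130, 4352, 18432, 16388, 514, 9504,
  4448, 642]

def tT : List ℕ := [
  2, 18432, 1280, 24, 642, 25, 1088, 8, 2, 2048, 4352, 18436, 642, 18436, 9504, 25, 4448,
  642, 1, 2, 16388, 514, 18432, 1280, 24, 514, 17, 4, 13376, 18436, 9504, 25, 13376, 9, 130,
  2052, 4448, 2052, 96, 18432, 640, 642, 25, 12288, 1088, 2048, 18436, 96, 18436, 642, 640,
  24, 9, 130, 13376, 2052, 9, 130, 25, 642, 1, 128, 8224, 514, 17, 18436, 4448, 9504, 25,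
  18432, 16388, 17]

def tP : List ℕ := [
  0, 1, 2, 3, 0, 3, 2, 3, 0, 1, 2, 1, 0, 1, 2, 3, 2, 0, 3, 0, 1, 0, 1, 2, 3, 0, 3, 1, 2, 1,
  2, 3, 2, 3, 0, 1, 2, 1, 2, 1, 0, 0, 3, 2, 2, 1, 1, 2, 1, 0, 0, 3, 3, 0, 2, 1, 3, 0, 3, 0,
  3, 0, 2, 0, 3, 1, 2, 2, 3, 1, 1, 3]

def tN : List ℕ := [
  1, 2, 3, 4, 5, 6, 7, 8, 9, 10, 11, 12, 13, 14, 15, 16, 11, 17, 18, 19, 9, 10, 20, 21, 22,
  23, 24, 25, 26, 6, 7, 8, 27, 4, 5, 28, 29, 30, 31, 4, 5, 32, 33, 34, 35, 36, 11, 12, 33,
  34, 37, 13, 30, 31, 38, 39, 40, 1, 23, 24, 41, 42, 43, 29, 23, 31, 41, 42, 44, 7, 8, 45,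
  10, 46, 12, 13, 2, 15, 47, 48, 49, 50, 51, 43, 52, 53, 37, 41, 42, 54, 33, 34, 55, 36, 46,
  12, 56, 57, 35, 36, 46, 12, 29, 30, 31, 4, 58, 32, 33, 34, 55, 59, 5, 28, 60, 61, 45, 59,
  58, 6, 29, 62, 31, 29, 30, 31, 36, 46, 12, 7, 61, 27, 60, 8, 45, 63, 64, 44, 41, 42, 54,
  60, 61, 9, 59, 58, 32, 65, 30, 31, 29, 62, 31, 10, 46, 12, 36, 11, 12, 65, 30, 31, 33, 34,
  55, 41, 42, 54, 36, 48, 12, 13, 30, 31, 66, 48, 49, 65, 67, 68, 38, 69, 40, 70, 62, 71, 60,
  61, 27, 29, 23, 31, 38, 46, 12, 59, 58, 28, 33, 34, 35, 33, 34, 37, 36, 48, 12, 41, 42, 44,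
  41, 42, 43, 38, 46, 12]

def tR : List ℕ := [
  96, 18432, 640, 4352, 0, 1, 1, 16388, 8, 18436, 0, 514, 8, 0, 642, 18432, 1280, 24, 16388,
  18436, 128, 0, 8224, 2, 0, 2, 17, 0, 128, 25, 640, 24, 12288, 514, 642, 0, 2048, 17, 0, 25,
  2048, 1088, 4, 4, 0]

def tC : List ℕ := [
  1, 2, 1, 1, 3, 1, 1, 4, 1, 2, 0, 0, 2, 2, 2, 2, 3, 4, 2, 4, 3, 3, 0, 0, 3, 2, 4, 3, 3, 3,
  3, 4, 2, 4, 0, 0, 4, 2, 3, 4, 3, 2, 4, 4, 4]

/-- colour of the state `s` in the copy `i` -/
def colN (s i : ℕ) : ℕ := tC.getD (3 * s + i) 0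

/-- the set of the successors of the state `s` under the letter `k` -/
def succN (k s : ℕ) : ℕ := tR.getD (15 * k + s) 0

/-- the transition relation -/
def Tr (k s t : ℕ) : Prop := s < 15 ∧ t < 15 ∧ (succN k s).testBit t = true

instance (k s t : ℕ) : Decidable (Tr k s t) := by unfold Tr; infer_instance

/-- the set of the successors of a set of states -/
def stepN (k S : ℕ) : ℕ :=
  (List.range 15).foldl (fun acc s => if S.testBit s then acc ||| succN k s else acc) 0

theorem foldl_spec (k S t : ℕ) (l : List ℕ) (acc : ℕ) :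
    (l.foldl (fun acc s => if S.testBit s then acc ||| succN k s else acc) acc).testBit t = true ↔
      acc.testBit t = true ∨ ∃ s ∈ l, S.testBit s = true ∧ (succN k s).testBit t = true := by
  induction l generalizing acc with
  | nil => simp
  | cons a l ih =>
    rw [List.foldl_cons, ih]
    by_cases ha : S.testBit a = true
    · rw [if_pos ha, Nat.testBit_or, Bool.or_eq_true]
      constructor
      · rintro ((h | h) | ⟨s, hs, h⟩)
        · exact Or.inl h
        · exact Or.inr ⟨a, List.mem_cons_self, ha, h⟩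
        · exact Or.inr ⟨s, List.mem_cons_of_mem _ hs, h⟩
      · rintro (h | ⟨s, hs, h⟩)
        · exact Or.inl (Or.inl h)
        · rcases List.mem_cons.1 hs with rfl | hs
          · exact Or.inl (Or.inr h.2)
          · exact Or.inr ⟨s, hs, h⟩
    · rw [if_neg ha]
      constructor
      · rintro (h | ⟨s, hs, h⟩)
        · exact Or.inl h
        · exact Or.inr ⟨s, List.mem_cons_of_mem _ hs, h⟩
      · rintro (h | ⟨s, hs, h⟩)
        · exact Or.inl h
        · rcases List.mem_cons.1 hs with rfl | hs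
          · exact absurd h.1 ha
          · exact Or.inr ⟨s, hs, h⟩

theorem stepN_spec {k S t : ℕ} (h : (stepN k S).testBit t = true) :
    ∃ s, s < 15 ∧ S.testBit s = true ∧ (succN k s).testBit t = true := by
  unfold stepN at h
  rw [foldl_spec] at h
  rcases h with h | ⟨s, hs, h⟩
  · simp at h
  · exact ⟨s, List.mem_range.1 hs, h⟩

/-- values of the letters in the Klein four group -/
def vp (k : ℕ) : ZMod 2 := if k = 1 then 0 else 1

def vq (k : ℕ) : ZMod 2 := if k = 0 then 0 else 1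

def enc (p q : ZMod 2) : ℕ := (if p = 0 then 0 else 1) + (if q = 0 then 0 else 2)

theorem enc_zero : enc 0 0 = 0 := by decide

theorem succ_lt : ∀ k < 3, ∀ s < 15, succN k s < 2 ^ 15 := by decide

theorem cert_next : ∀ j < 72, ∀ k < 3, tN.getD (3 * j + k) 0 < 72 := by decide

theorem cert_S : ∀ j < 72, ∀ k < 3, tS.getD (tN.getD (3 * j + k) 0) 0 = stepN k (tS.getD j 0) := by
  decide

theorem cert_T : ∀ j < 72, ∀ k < 3, tT.getD (tN.getD (3 * j + k) 0) 0 = stepN k (tT.getD j 0) := by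
  decide

theorem cert_P : ∀ j < 72, ∀ k < 3, ∀ p q : ZMod 2, enc p q = tP.getD j 0 →
    enc (p + vp k) (q + vq k) = tP.getD (tN.getD (3 * j + k) 0) 0 := by
  decide

theorem cert_end : ∀ j < 72, tP.getD j 0 = 0 →
    (tS.getD j 0).testBit 0 = true ∨ (tT.getD j 0).testBit 1 = true := by
  decide

/-- all walks -/
theorem walks (ℓ : ℕ → ℕ) (hℓ : ∀ i, ℓ i < 3) (n : ℕ) :
    ∃ j < 72, enc (∑ i ∈ Finset.range n, vp (ℓ i)) (∑ i ∈ Finset.range n, vq (ℓ i)) =
        tP.getD j 0 ∧
      (∀ t, (tS.getD j 0).testBit t = true → ∃ s : ℕ → ℕ, s 0 = 0 ∧ s n = t ∧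
        ∀ i < n, Tr (ℓ i) (s i) (s (i + 1))) ∧
      (∀ t, (tT.getD j 0).testBit t = true → ∃ s : ℕ → ℕ, s 0 = 1 ∧ s n = t ∧
        ∀ i < n, Tr (ℓ i) (s i) (s (i + 1))) := by
  induction n with
  | zero =>
    refine ⟨0, by norm_num, by simp [enc_zero]; decide, ?_, ?_⟩
    · intro t ht
      have : t = 0 := by
        have h1 : (tS.getD 0 0) = 2 ^ 0 := by decide
        rw [h1, Nat.testBit_two_pow] at ht
        simpa using (of_decide_eq_true (by simpa using ht) : 0 = t).symm
      exact ⟨fun _ => 0, rfl, this.symm, fun i hi => absurd hi (Nat.not_lt_zero i)⟩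
    · intro t ht
      have : t = 1 := by
        have h1 : (tT.getD 0 0) = 2 ^ 1 := by decide
        rw [h1, Nat.testBit_two_pow] at ht
        simpa using (of_decide_eq_true (by simpa using ht) : 1 = t).symm
      exact ⟨fun _ => 1, rfl, this.symm, fun i hi => absurd hi (Nat.not_lt_zero i)⟩
  | succ n ih =>
    obtain ⟨j, hj, hP, hS, hT⟩ := ih
    have hk := hℓ n
    refine ⟨tN.getD (3 * j + ℓ n) 0, cert_next j hj _ hk, ?_, ?_, ?_⟩
    · rw [Finset.sum_range_succ, Finset.sum_range_succ]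
      exact cert_P j hj _ hk _ _ hP
    · intro t ht
      rw [cert_S j hj _ hk] at ht
      obtain ⟨u, hu, h1, h2⟩ := stepN_spec ht
      obtain ⟨s, hs0, hsn, hs⟩ := hS u h1
      refine ⟨fun i => if i = n + 1 then t else s i, ?_, by simp, ?_⟩
      · simp [hs0]
      · intro i hi
        have ht15 : t < 15 := by
          by_contra hcon
          have h3 := succ_lt _ hk u hu
          have h4 : (succN (ℓ n) u).testBit t = false :=
            Nat.testBit_lt_two_pow (lt_of_lt_of_le h3 (Nat.pow_le_pow_right (by norm_num) (by omega)))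
          rw [h4] at h2
          exact absurd h2 (by simp)
        rcases Nat.lt_succ_iff_lt_or_eq.1 hi with h | rfl
        · have h5 := hs i h
          simp only [show i ≠ n + 1 by omega, show i + 1 ≠ n + 1 by omega, if_false]
          exact h5
        · simp only [show i ≠ i + 1 by omega, if_false, if_true]
          rw [hsn]
          exact ⟨hu, ht15, h2⟩
    · intro t ht
      rw [cert_T j hj _ hk] at ht
      obtain ⟨u, hu, h1, h2⟩ := stepN_spec ht
      obtain ⟨s, hs0, hsn, hs⟩ := hT u h1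
      refine ⟨fun i => if i = n + 1 then t else s i, ?_, by simp, ?_⟩
      · simp [hs0]
      · intro i hi
        have ht15 : t < 15 := by
          by_contra hcon
          have h3 := succ_lt _ hk u hu
          have h4 : (succN (ℓ n) u).testBit t = false :=
            Nat.testBit_lt_two_pow (lt_of_lt_of_le h3 (Nat.pow_le_pow_right (by norm_num) (by omega)))
          rw [h4] at h2
          exact absurd h2 (by simp)
        rcases Nat.lt_succ_iff_lt_or_eq.1 hi with h | rfl
        · have h5 := hs i h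
          simp only [show i ≠ n + 1 by omega, show i + 1 ≠ n + 1 by omega, if_false]
          exact h5
        · simp only [show i ≠ i + 1 by omega, if_false, if_true]
          rw [hsn]
          exact ⟨hu, ht15, h2⟩

/-- Every word with sum zero is read by a closed walk. -/
theorem closed_walk (ℓ : ℕ → ℕ) (hℓ : ∀ i, ℓ i < 3) (n : ℕ)
    (hp : ∑ i ∈ Finset.range n, vp (ℓ i) = 0) (hq : ∑ i ∈ Finset.range n, vq (ℓ i) = 0) :
    ∃ s : ℕ → ℕ, s 0 = s n ∧ ∀ i < n, Tr (ℓ i) (s i) (s (i + 1)) := by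
  obtain ⟨j, hj, hP, hS, hT⟩ := walks ℓ hℓ n
  rw [hp, hq, enc_zero] at hP
  rcases cert_end j hj hP.symm with h | h
  · obtain ⟨s, h0, hn, hs⟩ := hS _ h
    exact ⟨s, by rw [h0, hn], hs⟩
  · obtain ⟨s, h0, hn, hs⟩ := hT _ h
    exact ⟨s, by rw [h0, hn], hs⟩

/-- colour of the matching edge with letter `k` in the copy `i` -/
def mcol (k i : ℕ) : ℕ := if i = 0 then 0 else if i = 1 then 1 else k + 2

/-- the colour of the triangle edge opposite to the copy `i` -/
def tau (k s t i : ℕ) : ℕ :=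
  ((List.range 5).find? fun c =>
    decide (c ≠ mcol k ((i + 1) % 3) ∧ c ≠ colN s ((i + 1) % 3) ∧ c ≠ colN t ((i + 1) % 3) ∧
      c ≠ mcol k ((i + 2) % 3) ∧ c ≠ colN s ((i + 2) % 3) ∧ c ≠ colN t ((i + 2) % 3))).getD 0

/-- the colour of the edge number `e` at the vertex in the copy `i` -/
def slot (k s t i e : ℕ) : ℕ :=
  if e = 0 then mcol k i else if e = 1 then colN s i else if e = 2 then colN t i
  else if e = 3 then tau k s t ((i + 2) % 3) else tau k s t ((i + 1) % 3)

def okB (k s t : ℕ) : Bool :=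
  !((succN k s).testBit t) || (List.range 3).all fun i => (List.range 5).all fun e =>
    decide (slot k s t i e < 5) && (List.range 5).all fun e' =>
      !(slot k s t i e == slot k s t i e') || e == e'

theorem okB_all : ∀ k < 3, ∀ s < 15, ∀ t < 15, okB k s t = true := by decide

/-- The five colours at a vertex are distinct. -/
theorem local_ok {k s t : ℕ} (hk : k < 3) (h : Tr k s t) {i : ℕ} (hi : i < 3) {e : ℕ}
    (he : e < 5) : slot k s t i e < 5 ∧ ∀ e' < 5, slot k s t i e = slot k s t i e' → e = e' := by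
  have h1 := okB_all k hk s h.1 t h.2.1
  unfold okB at h1
  rw [h.2.2] at h1
  simp only [Bool.not_true, Bool.false_or, List.all_eq_true, List.mem_range, Bool.and_eq_true,
    decide_eq_true_eq, Bool.or_eq_true, Bool.not_eq_true', beq_eq_false_iff_ne, beq_iff_eq] at h1
  have h2 := h1 i hi e he
  refine ⟨h2.1, fun e' he' h3 => ?_⟩
  rcases h2.2 e' he' with h4 | h4
  · exact absurd h3 h4
  · exact h4

end Pool.Agent.Y320.KT
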